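import Mathlib
import Pool.Agent.Lib_helper90.FS.Defs

set_option autoImplicit false

/-! Block CO: coefficients. -/

namespace Pool.Agent.H90.FS

universe u

private theorem co_one {F : Type u} [Group F] {κ : Type u} [Field κ] {Γ : Type u} [Group Γ]
    (ρ : F →* Γ) {M : Type u} [AddCommGroup M] [Module κ M]
    (act : MonoidAlgebra κ Γ →ₐ[κ] Module.End κ M) (δ : F → M)
    (hδ : ∀ x y, δ (x * y) = δ x + act (MonoidAlgebra.of κ Γ (ρ x)) (δ y)) : δ 1 = 0 := by
  have h1 := hδ 1 1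
  rw [mul_one, map_one, map_one, map_one] at h1
  simpa using h1

private theorem co_ker {F : Type u} [Group F] {κ : Type u} [Field κ] {Γ : Type u} [Group Γ]
    (ρ : F →* Γ) {M : Type u} [AddCommGroup M] [Module κ M]
    (act : MonoidAlgebra κ Γ →ₐ[κ] Module.End κ M) (δ : F → M)
    (hδ : ∀ x y, δ (x * y) = δ x + act (MonoidAlgebra.of κ Γ (ρ x)) (δ y)) (x : F)
    (hx : ρ x = 1) (y : F) : δ (x * y) = δ x + δ y := by
  rw [hδ, hx, map_one, map_one]
  rfl

private theorem co_inv {F : Type u} [Group F] {κ : Type u} [Field κ] {Γ : Type u} [Group Γ]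
    (ρ : F →* Γ) {M : Type u} [AddCommGroup M] [Module κ M]
    (act : MonoidAlgebra κ Γ →ₐ[κ] Module.End κ M) (δ : F → M)
    (hδ : ∀ x y, δ (x * y) = δ x + act (MonoidAlgebra.of κ Γ (ρ x)) (δ y)) (x : F)
    (hx : ρ x = 1) : δ x⁻¹ = - δ x := by
  have h := co_ker ρ act δ hδ x hx x⁻¹
  rw [mul_inv_cancel, co_one ρ act δ hδ] at h
  exact (neg_eq_of_add_eq_zero_right h.symm).symm

private theorem co_pow {F : Type u} [Group F] {κ : Type u} [Field κ] {Γ : Type u} [Group Γ]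
    (ρ : F →* Γ) {M : Type u} [AddCommGroup M] [Module κ M]
    (act : MonoidAlgebra κ Γ →ₐ[κ] Module.End κ M) (δ : F → M)
    (hδ : ∀ x y, δ (x * y) = δ x + act (MonoidAlgebra.of κ Γ (ρ x)) (δ y)) (x : F)
    (hx : ρ x = 1) (n : ℕ) : δ (x ^ n) = (n : κ) • δ x := by
  induction n with
  | zero => rw [pow_zero, co_one ρ act δ hδ]; simp
  | succ n ih =>
    rw [pow_succ', co_ker ρ act δ hδ x hx, ih, Nat.cast_succ, add_smul, one_smul, add_comm]

/-- BLOCK CO. Coefficients. -/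
theorem rel_normal {F : Type u} [Group F] {m : ℕ} (r : Fin m → F) {κ : Type u} [Field κ]
    {Γ : Type u} [Group Γ] (ρ : F →* Γ) (hr : ∀ l, ρ (r l) = 1) (x : F)
    (hx : x ∈ Subgroup.normalClosure (Set.range r)) : ∃ c, Rel (κ := κ) r ρ x c := by
  have hker : ∀ y ∈ Subgroup.normalClosure (Set.range r), ρ y = 1 := by
    intro y hy
    have h : Subgroup.normalClosure (Set.range r) ≤ ρ.ker := by
      apply Subgroup.normalClosure_le_normal
      rintro _ ⟨l, rfl⟩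
      exact hr l
    exact h hy
  induction hx using Subgroup.closure_induction with
  | mem x hx =>
    obtain ⟨a, ha, hax⟩ := Group.mem_conjugatesOfSet_iff.1 hx
    obtain ⟨l, rfl⟩ := ha
    obtain ⟨g, rfl⟩ := isConj_iff.1 hax
    refine ⟨fun l' => if l' = l then MonoidAlgebra.of κ Γ (ρ g) else 0, ?_⟩
    intro M _ _ act δ h
    have h1 : δ (g * r l * g⁻¹) = δ g + act (MonoidAlgebra.of κ Γ (ρ g)) (δ (r l)) +
        act (MonoidAlgebra.of κ Γ (ρ g)) (δ g⁻¹) := by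
      rw [h, h, map_mul ρ, hr, mul_one]
    have h2 : δ g + act (MonoidAlgebra.of κ Γ (ρ g)) (δ g⁻¹) = 0 := by
      rw [← h, mul_inv_cancel]
      exact co_one ρ act δ h
    rw [h1, Finset.sum_eq_single l]
    · beta_reduce
      rw [if_pos rfl]
      have : δ g + act (MonoidAlgebra.of κ Γ (ρ g)) (δ (r l)) +
          act (MonoidAlgebra.of κ Γ (ρ g)) (δ g⁻¹) =
        (δ g + act (MonoidAlgebra.of κ Γ (ρ g)) (δ g⁻¹)) +
          act (MonoidAlgebra.of κ Γ (ρ g)) (δ (r l)) := by abel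
      rw [this, h2, zero_add]
    · intro b _ hb
      beta_reduce
      rw [if_neg hb, map_zero]
      rfl
    · intro h
      exact absurd (Finset.mem_univ _) h
  | one =>
    refine ⟨0, ?_⟩
    intro M _ _ act δ h
    rw [co_one ρ act δ h]
    simp
  | mul x y hx hy ihx ihy =>
    obtain ⟨c, hc⟩ := ihx
    obtain ⟨d, hd⟩ := ihy
    refine ⟨c + d, ?_⟩
    intro M _ _ act δ h
    rw [co_ker ρ act δ h x (hker x hx), hc M act δ h, hd M act δ h, ← Finset.sum_add_distrib]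
    refine Finset.sum_congr rfl fun l _ => ?_
    rw [Pi.add_apply, map_add]
    rfl
  | inv x hx ihx =>
    obtain ⟨c, hc⟩ := ihx
    refine ⟨-c, ?_⟩
    intro M _ _ act δ h
    rw [co_inv ρ act δ h x (hker x hx), hc M act δ h, ← Finset.sum_neg_distrib]
    refine Finset.sum_congr rfl fun l _ => ?_
    rw [Pi.neg_apply, map_neg]
    rfl

theorem rel_pow {F : Type u} [Group F] {m : ℕ} (r : Fin m → F) {κ : Type u} [Field κ] [CharZero κ]
    {Γ : Type u} [Group Γ] (ρ : F →* Γ) (hr : ∀ l, ρ (r l) = 1) (x : F) (hx : ρ x = 1) (n : ℕ)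
    (hn : 0 < n) (hxn : x ^ n ∈ ⁅ρ.ker, ρ.ker⁆ ⊔ Subgroup.normalClosure (Set.range r)) :
    ∃ c, Rel (κ := κ) r ρ x c := by
  obtain ⟨a, ha, b, hb, hab⟩ := Subgroup.mem_sup_of_normal_right.1 hxn
  obtain ⟨c, hc⟩ := rel_normal (κ := κ) r ρ hr b hb
  refine ⟨fun l => (n : κ)⁻¹ • c l, ?_⟩
  intro M _ _ act δ h
  have hn0 : (n : κ) ≠ 0 := Nat.cast_ne_zero.2 hn.ne'
  -- the subgroup of the elements of the kernel where `δ` vanishes
  let Z : Subgroup F :=
    { carrier := {y | ρ y = 1 ∧ δ y = 0}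
      one_mem' := ⟨map_one ρ, co_one ρ act δ h⟩
      mul_mem' := by
        rintro y z ⟨hy, hy'⟩ ⟨hz, hz'⟩
        refine ⟨by rw [map_mul, hy, hz, mul_one], ?_⟩
        rw [co_ker ρ act δ h y hy, hy', hz', add_zero]
      inv_mem' := by
        rintro y ⟨hy, hy'⟩
        refine ⟨by rw [map_inv, hy, inv_one], ?_⟩
        rw [co_inv ρ act δ h y hy, hy', neg_zero] }
  have hZ : ⁅ρ.ker, ρ.ker⁆ ≤ Z := by
    rw [Subgroup.commutator_le]
    intro g₁ h₁ g₂ h₂
    have e₁ : ρ g₁ = 1 := h₁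
    have e₂ : ρ g₂ = 1 := h₂
    have e₃ : ρ g₁⁻¹ = 1 := by rw [map_inv, e₁, inv_one]
    have e₄ : ρ (g₁ * g₂) = 1 := by rw [map_mul, e₁, e₂, mul_one]
    have e₅ : ρ (g₁ * g₂ * g₁⁻¹) = 1 := by rw [map_mul, e₄, e₃, mul_one]
    refine ⟨?_, ?_⟩
    · rw [commutatorElement_def, map_mul, e₅, map_inv, e₂, inv_one, mul_one]
    · rw [commutatorElement_def, co_ker ρ act δ h _ e₅, co_ker ρ act δ h _ e₄,
        co_ker ρ act δ h _ e₁, co_inv ρ act δ h _ e₁, co_inv ρ act δ h _ e₂]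
      abel
  have hda : ρ a = 1 ∧ δ a = 0 := hZ ha
  have h1 : (n : κ) • δ x = ∑ l, act (c l) (δ (r l)) := by
    rw [← co_pow ρ act δ h x hx n, ← hab, co_ker ρ act δ h a hda.1, hda.2, zero_add,
      hc M act δ h]
  have h2 : δ x = (n : κ)⁻¹ • ∑ l, act (c l) (δ (r l)) := by
    rw [← h1, smul_smul, inv_mul_cancel₀ hn0, one_smul]
  rw [h2, Finset.smul_sum]
  refine Finset.sum_congr rfl fun l _ => ?_
  rw [map_smul]
  rfl

end Pool.Agent.H90.FS
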