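import Mathlib
import Pool.Agent.Lib_helper90.FS.Defs
import Pool.Agent.Lib_helper37.FS.RO

set_option autoImplicit false

/-! Block FP: from `main_rankOne`, the class is closed under free products and discrimination. -/

namespace Pool.Agent.H90.FS

universe u

private theorem fp_ne_one {ι : Type*} {V : ι → Type*} [∀ i, Group (V i)] {a b : ι}
    (w : Monoid.CoprodI.NeWord V a b) : w.prod ≠ 1 := by
  classical
  intro h
  have h2 : w.toWord = Monoid.CoprodI.Word.empty := by
    apply Monoid.CoprodI.Word.equiv.symm.injective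
    change w.prod = Monoid.CoprodI.Word.prod Monoid.CoprodI.Word.empty
    rw [h, Monoid.CoprodI.Word.prod_empty]
  exact w.toList_ne_nil (congrArg Monoid.CoprodI.Word.toList h2)

private theorem fp_neword {ι : Type*} {S : Set ι} {A : S → Type*} {V : ι → Type*}
    [∀ i, Group (A i)] [∀ i, Group (V i)]
    (f : ∀ i : S, A i →* V i) {a b : S} (w : Monoid.CoprodI.NeWord A a b)
    (hf : ∀ p ∈ w.toList, f p.1 p.2 ≠ 1) :
    ∃ w' : Monoid.CoprodI.NeWord V a b,
      w'.prod = Monoid.CoprodI.lift
        (fun i : S => (Monoid.CoprodI.of (M := V) (i := (i : ι))).comp (f i)) w.prod := by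
  induction w with
  | singleton x hx =>
    refine ⟨.singleton (f _ x) (hf ⟨_, x⟩ (by simp [Monoid.CoprodI.NeWord.toList])), ?_⟩
    rw [Monoid.CoprodI.NeWord.prod_singleton, Monoid.CoprodI.NeWord.prod_singleton,
      Monoid.CoprodI.lift_of]
    rfl
  | append w₁ hne w₂ ih₁ ih₂ =>
    obtain ⟨v₁, h₁⟩ := ih₁ (fun p hp => hf p (List.mem_append_left _ hp))
    obtain ⟨v₂, h₂⟩ := ih₂ (fun p hp => hf p (List.mem_append_right _ hp))
    exact ⟨.append v₁ (fun h => hne (Subtype.ext h)) v₂, by
      rw [Monoid.CoprodI.NeWord.append_prod, Monoid.CoprodI.NeWord.append_prod, map_mul, h₁, h₂]⟩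

/-- The finite set of the syllables of an element `x ≠ 1` of the free product over `S`. -/
private theorem fp_syll {ι : Type} {S : Set ι} {A : ι → Type u}
    [∀ i, Group (A i)] (x : Monoid.CoprodI fun i : S => A i) (hx : x ≠ 1) :
    ∃ L : List (Σ i, A i), (∀ p ∈ L, p.2 ≠ 1) ∧
      ∀ (V : ι → Type u) [∀ i, Group (V i)] (f : ∀ i, A i →* V i),
        (∀ p ∈ L, f p.1 p.2 ≠ 1) →
        Monoid.CoprodI.lift (M := fun i : S => A i)
          (fun i : S => (Monoid.CoprodI.of (M := V) (i := (i : ι))).comp (f i)) x ≠ 1 := by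
  classical
  have h1 : Monoid.CoprodI.Word.equiv x ≠ Monoid.CoprodI.Word.empty := by
    intro h
    apply hx
    have h2 : Monoid.CoprodI.Word.equiv.symm (Monoid.CoprodI.Word.equiv x) =
        Monoid.CoprodI.Word.prod Monoid.CoprodI.Word.empty := by rw [h]; rfl
    rw [Equiv.symm_apply_apply, Monoid.CoprodI.Word.prod_empty] at h2
    exact h2
  obtain ⟨a, b, w, hw⟩ := Monoid.CoprodI.NeWord.of_word _ h1
  have h3 : w.prod = x := by
    change Monoid.CoprodI.Word.prod w.toWord = x
    rw [hw]
    exact Monoid.CoprodI.Word.equiv.symm_apply_apply x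
  refine ⟨w.toList.map (fun p => (⟨p.1, p.2⟩ : Σ i, A i)), ?_, ?_⟩
  · intro p hp
    obtain ⟨q, hq, rfl⟩ := List.mem_map.1 hp
    exact w.toWord.ne_one q hq
  · intro V _ f hf
    obtain ⟨w', hw'⟩ := fp_neword (A := fun i : S => A i) (V := V) (fun i : S => f i) w
      (fun p hp => hf ⟨p.1, p.2⟩ (List.mem_map.2 ⟨p, hp, rfl⟩))
    rw [h3] at hw'
    rw [← hw']
    exact fp_ne_one w'

/-- BLOCK FP. From `main_rankOne`: the class is closed under free products and discrimination. -/
theorem main_discr {n m : ℕ} (hmn : m ≤ n) {A : Fin n → Type u} [∀ i, Group (A i)]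
    (hA : ∀ i, Discr (A i)) (r : Fin m → Monoid.CoprodI A) :
    ∃ S : Finset (Fin n), S.card = n - m ∧
      ∀ x : Monoid.CoprodI fun i : S => A i, Monoid.CoprodI.lift (M := fun i : S => A i)
        (fun i => Monoid.CoprodI.of (i := (i : Fin n))) x ∈ Subgroup.normalClosure (Set.range r) →
        x = 1 := by
  classical
  by_contra hcon
  push Not at hcon
  -- the syllables of the bad elements
  have hL : ∀ S : Finset (Fin n), ∃ L : List (Σ i, A i), (∀ p ∈ L, p.2 ≠ 1) ∧
      (S.card = n - m → ∃ x : Monoid.CoprodI fun i : S => A i,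
        Monoid.CoprodI.lift (M := fun i : S => A i)
          (fun i => Monoid.CoprodI.of (i := (i : Fin n))) x ∈
            Subgroup.normalClosure (Set.range r) ∧
        ∀ (V : Fin n → Type u) [∀ i, Group (V i)] (f : ∀ i, A i →* V i),
          (∀ p ∈ L, f p.1 p.2 ≠ 1) →
          Monoid.CoprodI.lift (M := fun i : S => A i)
            (fun i : S => (Monoid.CoprodI.of (M := V) (i := (i : Fin n))).comp (f i)) x ≠ 1) := by
    intro S
    by_cases hS : S.card = n - m
    · obtain ⟨x, hx, hx1⟩ := hcon S hS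
      obtain ⟨L, hL1, hL2⟩ := fp_syll (S := (S : Set (Fin n))) (A := A) x hx1
      exact ⟨L, hL1, fun _ => ⟨x, hx, fun V _ f hf => hL2 V f hf⟩⟩
    · exact ⟨[], by simp, fun h => absurd h hS⟩
  choose L hL1 hL2 using hL
  let X : ∀ i, Set (A i) := fun i => {a | ∃ S, (⟨i, a⟩ : Σ i, A i) ∈ L S}
  have hXf : ∀ i, (X i).Finite := by
    intro i
    have h1 : (⋃ S : Finset (Fin n), {p | p ∈ L S}).Finite :=
      Set.finite_iUnion fun S => (L S).finite_toSet
    have h2 : X i = (Sigma.mk i : A i → Σ i, A i) ⁻¹' (⋃ S : Finset (Fin n), {p | p ∈ L S}) := by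
      ext a
      simp [X]
    rw [h2]
    exact h1.preimage (sigma_mk_injective.injOn)
  have hX1 : ∀ i, (1 : A i) ∉ X i := by
    rintro i ⟨S, hS⟩
    exact hL1 S _ hS rfl
  choose l B gB f hB hf using fun i => hA i (X i) (hXf i) (hX1 i)
  let V : Fin n → Type u := fun i => Monoid.CoprodI (B i)
  let B' : (Σ i : Fin n, Fin (l i)) → Type u := fun p => B p.1 p.2
  let F : Monoid.CoprodI A →* Monoid.CoprodI B' := Monoid.CoprodI.lift fun i =>
    (Monoid.CoprodI.lift fun j => Monoid.CoprodI.of (M := B') (i := ⟨i, j⟩)).comp (f i)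
  obtain ⟨S', hS', h⟩ := main_rankOne (A := B') (fun p => hB p.1 p.2) (fun t => F (r t))
  -- the complete indices
  let T : Finset (Fin n) := Finset.univ.filter fun i => ∀ j : Fin (l i), (⟨i, j⟩ : Σ i, Fin (l i)) ∈ S'
  have hT : n - m ≤ T.card := by
    have h1 : Tᶜ.card ≤ S'ᶜ.card := by
      apply Finset.card_le_card_of_surjOn (fun p : (Σ i, Fin (l i)) => p.1)
      intro i hi
      have hi' : i ∉ T := Finset.mem_compl.1 hi
      simp only [T, Finset.mem_filter, Finset.mem_univ, true_and, not_forall] at hi'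
      obtain ⟨j, hj⟩ := hi'
      exact ⟨⟨i, j⟩, Finset.mem_coe.2 (Finset.mem_compl.2 hj), rfl⟩
    rw [Finset.card_compl, Finset.card_compl, Fintype.card_fin] at h1
    omega
  obtain ⟨S, hST, hS⟩ := Finset.exists_subset_card_eq hT
  obtain ⟨x, hx, hx2⟩ := hL2 S hS
  have hmem : ∀ i ∈ S, ∀ j : Fin (l i), (⟨i, j⟩ : Σ i, Fin (l i)) ∈ S' := by
    intro i hi
    have := hST hi
    simp only [T, Finset.mem_filter, Finset.mem_univ, true_and] at this
    exact this
  let G : (Monoid.CoprodI fun i : S => A i) →* (Monoid.CoprodI fun p : S' => B' p) :=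
    Monoid.CoprodI.lift fun i : S =>
      (Monoid.CoprodI.lift (M := B i) fun j =>
        Monoid.CoprodI.of (M := fun p : S' => B' p) (i := ⟨⟨i, j⟩, hmem i i.2 j⟩)).comp (f i)
  have hFG : F.comp (Monoid.CoprodI.lift (M := fun i : S => A i)
      (fun i => Monoid.CoprodI.of (M := A) (i := (i : Fin n)))) =
      (Monoid.CoprodI.lift (M := fun p : S' => B' p)
        (fun p => Monoid.CoprodI.of (M := B') (i := (p : Σ i, Fin (l i))))).comp G := by
    apply Monoid.CoprodI.ext_hom
    intro i
    ext a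
    simp only [MonoidHom.comp_apply, Monoid.CoprodI.lift_of, F, G]
    generalize f i a = y
    rw [← MonoidHom.comp_apply]
    apply DFunLike.congr_fun
    apply Monoid.CoprodI.ext_hom
    intro j
    ext b
    simp only [MonoidHom.comp_apply, Monoid.CoprodI.lift_of]
  have h2 : F (Monoid.CoprodI.lift (M := fun i : S => A i)
      (fun i => Monoid.CoprodI.of (i := (i : Fin n))) x) ∈
      Subgroup.normalClosure (Set.range fun t => F (r t)) := by
    have h3 : Subgroup.normalClosure (Set.range r) ≤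
        (Subgroup.normalClosure (Set.range fun t => F (r t))).comap F := by
      apply Subgroup.normalClosure_le_normal
      rintro _ ⟨t, rfl⟩
      exact Subgroup.subset_normalClosure ⟨t, rfl⟩
    exact h3 hx
  have h4 := DFunLike.congr_fun hFG x
  rw [MonoidHom.comp_apply, MonoidHom.comp_apply] at h4
  rw [h4] at h2
  have h5 := h (G x) h2
  -- the projection back
  let Ψ : (Monoid.CoprodI fun p : S' => B' p) →* Monoid.CoprodI V :=
    Monoid.CoprodI.lift fun p : S' =>
      (Monoid.CoprodI.of (M := V) (i := p.1.1)).comp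
        (Monoid.CoprodI.of (M := B p.1.1) (i := p.1.2))
  have h6 : Ψ.comp G = Monoid.CoprodI.lift (M := fun i : S => A i)
      (fun i : S => (Monoid.CoprodI.of (M := V) (i := (i : Fin n))).comp (f i)) := by
    apply Monoid.CoprodI.ext_hom
    intro i
    ext a
    simp only [MonoidHom.comp_apply, Monoid.CoprodI.lift_of, G]
    generalize f i a = y
    rw [← MonoidHom.comp_apply]
    apply DFunLike.congr_fun
    apply Monoid.CoprodI.ext_hom
    intro j
    ext b
    simp only [MonoidHom.comp_apply, Monoid.CoprodI.lift_of, Ψ]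
  apply hx2 V f
  · rintro ⟨i, a⟩ hp
    exact hf i a ⟨S, hp⟩
  · rw [← h6, MonoidHom.comp_apply, h5, map_one]

end Pool.Agent.H90.FS
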