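import Mathlib
import Pool.Agent.Lib_helper90.FS.Defs

set_option autoImplicit false

/-! Block UP: unique products for extensions. -/

namespace Pool.Agent.H90.FS

universe u

private theorem up_ker {K : Type u} [Group K] (hc : ∀ x y : K, x * y = y * x)
    (ht : ∀ (x : K) (n : ℕ), 0 < n → x ^ n = 1 → x = 1) : UniqueProds K := by
  obtain ⟨Q, _, _, α, hα, hk⟩ := FR.tensor_data K
  have hcom : commutator K = ⊥ := by
    rw [eq_bot_iff, commutator_def, Subgroup.commutator_le]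
    intro x _ y _
    rw [Subgroup.mem_bot, commutatorElement_eq_one_iff_mul_comm]
    exact hc x y
  have h0 : ∀ a, α a = 0 → a = 1 := by
    intro a ha
    have h1 := (hk a).1 ha
    unfold FR.ratDer at h1
    rw [Subgroup.mem_comap, CommGroup.mem_torsion, isOfFinOrder_iff_pow_eq_one] at h1
    obtain ⟨n, hn, h2⟩ := h1
    rw [← map_pow] at h2
    have h3 : a ^ n ∈ commutator K := (QuotientGroup.eq_one_iff _).1 h2
    rw [hcom, Subgroup.mem_bot] at h3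
    exact ht a n hn h3
  let φ : K →* Multiplicative Q :=
    MonoidHom.mk' (fun a => Multiplicative.ofAdd (α a)) (fun a b => by
      rw [hα]
      rfl)
  have hφ : Function.Injective φ := by
    rw [injective_iff_map_eq_one]
    intro a ha
    exact h0 a ha
  exact UniqueProds.of_injective_mulHom (φ : K →ₙ* Multiplicative Q) hφ inferInstance

/-- BLOCK UP. Unique products for extensions. -/
theorem up_ext {Γ Γ' : Type u} [Group Γ] [Group Γ'] (π : Γ →* Γ') (hπ : KerTFA π)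
    (h : UniqueProds Γ') : UniqueProds Γ := by
  classical
  have hK : UniqueProds π.ker := up_ker
    (fun x y => Subtype.ext (hπ.1 x y x.2 y.2))
    (fun x n hn hx => Subtype.ext (hπ.2 x n x.2 hn (by
      have := congrArg Subtype.val hx
      simpa using this)))
  refine ⟨?_⟩
  intro A B hA hB
  obtain ⟨a', ha', b', hb', hu⟩ := h.uniqueMul_of_nonempty (hA.image π) (hB.image π)
  obtain ⟨a₁, ha₁, rfl⟩ := Finset.mem_image.1 ha'
  obtain ⟨b₁, hb₁, rfl⟩ := Finset.mem_image.1 hb'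
  let X : Finset π.ker := (A.filter fun a => π a = π a₁).attach.image fun a =>
    ⟨a₁⁻¹ * a.1, by
      rw [MonoidHom.mem_ker, map_mul, map_inv, (Finset.mem_filter.1 a.2).2, inv_mul_cancel]⟩
  let Y : Finset π.ker := (B.filter fun b => π b = π b₁).attach.image fun b =>
    ⟨b.1 * b₁⁻¹, by
      rw [MonoidHom.mem_ker, map_mul, map_inv, (Finset.mem_filter.1 b.2).2, mul_inv_cancel]⟩
  have hXm : ∀ a ∈ A, ∀ ha : π a = π a₁, ∀ h', (⟨a₁⁻¹ * a, h'⟩ : π.ker) ∈ X := by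
    intro a haA ha h'
    exact Finset.mem_image.2 ⟨⟨a, Finset.mem_filter.2 ⟨haA, ha⟩⟩, Finset.mem_attach _ _, rfl⟩
  have hYm : ∀ b ∈ B, ∀ hb : π b = π b₁, ∀ h', (⟨b * b₁⁻¹, h'⟩ : π.ker) ∈ Y := by
    intro b hbB hb h'
    exact Finset.mem_image.2 ⟨⟨b, Finset.mem_filter.2 ⟨hbB, hb⟩⟩, Finset.mem_attach _ _, rfl⟩
  have hX : X.Nonempty := ⟨_, hXm a₁ ha₁ rfl (by simp)⟩
  have hY : Y.Nonempty := ⟨_, hYm b₁ hb₁ rfl (by simp)⟩
  obtain ⟨x₀, hx₀, y₀, hy₀, hxy⟩ := hK.uniqueMul_of_nonempty hX hY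
  obtain ⟨⟨a₀, ha₀⟩, _, rfl⟩ := Finset.mem_image.1 hx₀
  obtain ⟨⟨b₀, hb₀⟩, _, rfl⟩ := Finset.mem_image.1 hy₀
  obtain ⟨ha₀A, ha₀π⟩ := Finset.mem_filter.1 ha₀
  obtain ⟨hb₀B, hb₀π⟩ := Finset.mem_filter.1 hb₀
  refine ⟨a₀, ha₀A, b₀, hb₀B, ?_⟩
  intro a b ha hb hab
  have h1 : π a * π b = π a₁ * π b₁ := by
    rw [← map_mul, hab, map_mul, ha₀π, hb₀π]
  obtain ⟨h2, h3⟩ := hu (Finset.mem_image_of_mem _ ha) (Finset.mem_image_of_mem _ hb) h1
  have ka : a₁⁻¹ * a ∈ π.ker := by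
    rw [MonoidHom.mem_ker, map_mul, map_inv, h2, inv_mul_cancel]
  have kb : b * b₁⁻¹ ∈ π.ker := by
    rw [MonoidHom.mem_ker, map_mul, map_inv, h3, mul_inv_cancel]
  obtain ⟨h4, h5⟩ := hxy (hXm a ha h2 ka) (hYm b hb h3 kb) (by
    apply Subtype.ext
    change a₁⁻¹ * a * (b * b₁⁻¹) = a₁⁻¹ * a₀ * (b₀ * b₁⁻¹)
    calc a₁⁻¹ * a * (b * b₁⁻¹) = a₁⁻¹ * (a * b) * b₁⁻¹ := by group
      _ = a₁⁻¹ * (a₀ * b₀) * b₁⁻¹ := by rw [hab]
      _ = _ := by group)
  have h4' := congrArg Subtype.val h4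
  have h5' := congrArg Subtype.val h5
  exact ⟨mul_left_cancel h4', mul_right_cancel h5'⟩

end Pool.Agent.H90.FS
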